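import Mathlib
import Pool.Agent.Results.MP_705b7e_co.StarForestBounds
import Pool.Agent.H599R2.Ram.ES

/-!
# The smallest Ramsey numbers of graphs without isolated vertices

Let `f n` be the least Ramsey number of a graph with `n` vertices, none of them isolated. Then
`n + log₂ n - log₂ log₂ n - 3 ≤ f n ≤ n + log₂ n + 3` for all `n ≥ 4`.

Upper bound: with `k` stars and `u = n - 2 k < 2 ^ k`, take the star forest with star sizes
`(⌊u / 2 ^ i⌋ + 3) / 2`, `i < k`; the bound of `StarForestBounds` for its Ramsey number is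
`n + k + 2`. Lower bound: every graph without isolated vertices has a spanning star forest, and
the two lower bounds `n + k - 1` and `max_i (s_1 + ... + s_{i-1} + 2 s_i)` of `StarForestBounds`
cannot both be small.
-/

set_option autoImplicit false

namespace Pool.Agent.Results.MP_624632_co.SmallestRamsey

open Finset Classical

open Pool.Agent.Results.MP_705b7e_co (StarForestBounds.starForest StarForestBounds.arrows_of_bound
  StarForestBounds.card_vertices StarForestBounds.result StarForestBounds.leadingTerm)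

/-- Every colouring of the edges of the complete graph on `N` vertices with the colours red and
blue contains a monochromatic copy of `G`. Here `R` is the graph of the red edges, its complement
`Rᶜ` is the graph of the blue edges, and `G.IsContained R` says that some (not necessarily
induced) subgraph of `R` is isomorphic to `G`. -/
def Arrows (N : ℕ) {V : Type} (G : SimpleGraph V) : Prop :=
  ∀ R : SimpleGraph (Fin N), G.IsContained R ∨ G.IsContained Rᶜ

/-- The Ramsey number `r(G)`: the least `N` such that every colouring of the edges of `K_N` with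
two colours contains a monochromatic copy of `G`. -/
noncomputable def ramseyNumber {V : Type} (G : SimpleGraph V) : ℕ :=
  sInf {N : ℕ | Arrows N G}

/-- The least Ramsey number of a graph with `n` vertices and no isolated vertex. -/
noncomputable def f (n : ℕ) : ℕ :=
  sInf {r : ℕ | ∃ G : SimpleGraph (Fin n), (∀ v, ∃ w, G.Adj v w) ∧ r = ramseyNumber G}

theorem Arrows.mono {N M : ℕ} (h : N ≤ M) {V : Type} {G : SimpleGraph V}
    (hG : Arrows N G) : Arrows M G :=
  Pool.Agent.Results.MP_705b7e_co.StarForestBounds.Arrows.mono h hG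

theorem Arrows.of_contained {N : ℕ} {V W : Type} {G : SimpleGraph V} {H : SimpleGraph W}
    (h : H.IsContained G) (hG : Arrows N G) : Arrows N H := by
  intro R
  rcases hG R with h1 | h1
  · exact Or.inl (h.trans h1)
  · exact Or.inr (h.trans h1)

/-- Ramsey's theorem: Ramsey numbers exist. -/
theorem exists_arrows {n : ℕ} (G : SimpleGraph (Fin n)) : ∃ N, Arrows N G := by
  refine ⟨(n + n).choose n, fun R => ?_⟩
  have key : ∀ (Q : SimpleGraph (Fin ((n + n).choose n))) (S : Finset (Fin ((n + n).choose n))),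
      n ≤ S.card → (∀ x ∈ S, ∀ y ∈ S, x ≠ y → Q.Adj x y) → G.IsContained Q := by
    intro Q S hS hQ
    obtain ⟨φ, hφ⟩ : ∃ φ : Fin n → Fin ((n + n).choose n), Function.Injective φ ∧ ∀ i, φ i ∈ S := by
      refine ⟨fun i => S.orderEmbOfFin rfl (Fin.castLE hS i), ?_, ?_⟩
      · intro a b hab
        exact Fin.castLE_injective hS ((S.orderEmbOfFin rfl).injective hab)
      · intro i
        exact S.orderEmbOfFin_mem rfl _
    refine ⟨⟨⟨φ, ?_⟩, hφ.1⟩⟩
    intro a b hab
    exact hQ _ (hφ.2 a) _ (hφ.2 b) (fun h => hab.ne (hφ.1 h))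
  rcases Pool.Agent.H599R2.Ram.es R (n + n) n n rfl Finset.univ (by simp) with ⟨S, -, hS⟩ | ⟨S, -, hS⟩
  · left
    refine key R S (by rw [hS.card_eq]; omega) ?_
    intro x hx y hy hxy
    exact hS.isClique hx hy hxy
  · right
    refine key Rᶜ S (by rw [hS.card_eq]; omega) ?_
    intro x hx y hy hxy
    rw [SimpleGraph.compl_adj]
    exact ⟨hxy, hS.isIndepSet hx hy hxy⟩

theorem arrows_ramseyNumber {n : ℕ} (G : SimpleGraph (Fin n)) : Arrows (ramseyNumber G) G :=
  Nat.sInf_mem (s := {N : ℕ | Arrows N G}) (exists_arrows G)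

/-! ### spanning star forests -/

/-- A graph without isolated vertices has a spanning star forest, given by the set `D` of centres
and the map `g` which sends each other vertex to its centre. -/
theorem exists_centres {n : ℕ} (G : SimpleGraph (Fin n)) (hG : ∀ v, ∃ w, G.Adj v w) :
    ∃ (D : Finset (Fin n)) (g : Fin n → Fin n),
      (∀ v, v ∉ D → g v ∈ D ∧ G.Adj (g v) v) ∧ (∀ d ∈ D, ∃ v, v ∉ D ∧ g v = d) := by
  -- an edge-minimal subgraph without isolated vertices
  obtain ⟨F, hFm⟩ : ∃ F : SimpleGraph (Fin n), Minimal (fun F => F ≤ G ∧ ∀ v, ∃ w, F.Adj v w) F := by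
    have hfin : {F : SimpleGraph (Fin n) | F ≤ G ∧ ∀ v, ∃ w, F.Adj v w}.Finite := Set.toFinite _
    obtain ⟨F, hF⟩ := hfin.exists_minimal ⟨G, le_rfl, hG⟩
    exact ⟨F, hF⟩
  obtain ⟨⟨hFG, hF⟩, hmin⟩ := hFm
  have hstar : ∀ u v, F.Adj u v → (∀ w, F.Adj u w → w = v) ∨ (∀ w, F.Adj v w → w = u) := by
    intro u v huv
    by_contra hcon
    push Not at hcon
    obtain ⟨⟨w1, hw1, hw1'⟩, w2, hw2, hw2'⟩ := hcon
    have hdel : F ≤ F.deleteEdges {s(u, v)} := by
      apply hmin ?_ (SimpleGraph.deleteEdges_le _)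
      refine ⟨(SimpleGraph.deleteEdges_le _).trans hFG, fun x => ?_⟩
      by_cases hxu : x = u
      · refine ⟨w1, ?_⟩
        rw [hxu, SimpleGraph.deleteEdges_adj]
        refine ⟨hw1, ?_⟩
        simp only [Set.mem_singleton_iff, Sym2.eq_iff]
        rintro (⟨-, h⟩ | ⟨h, h'⟩)
        · exact hw1' h
        · exact huv.ne h
      · by_cases hxv : x = v
        · refine ⟨w2, ?_⟩
          rw [hxv, SimpleGraph.deleteEdges_adj]
          refine ⟨hw2, ?_⟩
          simp only [Set.mem_singleton_iff, Sym2.eq_iff]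
          rintro (⟨h, -⟩ | ⟨-, h⟩)
          · exact huv.ne h.symm
          · exact hw2' h
        · obtain ⟨w, hw⟩ := hF x
          refine ⟨w, ?_⟩
          rw [SimpleGraph.deleteEdges_adj]
          refine ⟨hw, ?_⟩
          simp only [Set.mem_singleton_iff, Sym2.eq_iff]
          rintro (⟨h, -⟩ | ⟨h, -⟩)
          · exact hxu h
          · exact hxv h
    have := hdel huv
    rw [SimpleGraph.deleteEdges_adj] at this
    exact this.2 rfl
  choose g hg using hF
  -- the centres
  let D : Finset (Fin n) := univ.filter fun v =>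
    (∃ w w', F.Adj v w ∧ F.Adj v w' ∧ w ≠ w') ∨ ((∀ w, F.Adj (g v) w → w = v) ∧ v < g v)
  have hD : ∀ v, v ∈ D ↔ (∃ w w', F.Adj v w ∧ F.Adj v w' ∧ w ≠ w') ∨
      ((∀ w, F.Adj (g v) w → w = v) ∧ v < g v) := by
    intro v
    simp [D]
  have huniq : ∀ v, v ∉ D → ∀ w, F.Adj v w → w = g v := by
    intro v hv w hw
    by_contra hne
    exact hv ((hD v).2 (Or.inl ⟨w, g v, hw, hg v, hne⟩))
  refine ⟨D, g, ?_, ?_⟩
  · intro v hv
    refine ⟨?_, (hFG (hg v)).symm⟩
    rw [hD]
    by_cases h2 : ∃ w w', F.Adj (g v) w ∧ F.Adj (g v) w' ∧ w ≠ w'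
    · exact Or.inl h2
    · right
      push Not at h2
      have hggv : g (g v) = v := (h2 _ _ (hg (g v)) (hg v).symm)
      rw [hggv]
      refine ⟨fun w hw => huniq v hv w hw, ?_⟩
      have hnot : ¬ ((∀ w, F.Adj (g v) w → w = v) ∧ v < g v) := fun h => hv ((hD v).2 (Or.inr h))
      have h3 : ∀ w, F.Adj (g v) w → w = v := fun w hw => h2 _ _ hw (hg v).symm
      have h4 : ¬ v < g v := fun h => hnot ⟨h3, h⟩
      have h5 : g v ≠ v := (hg v).ne'
      exact lt_of_le_of_ne (not_lt.1 h4) h5
  · intro d hd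
    rw [hD] at hd
    rcases hd with ⟨w, w', hw, hw', hne⟩ | ⟨h1, h2⟩
    · refine ⟨w, ?_, ?_⟩
      · intro hwD
        rw [hD] at hwD
        have hlw : ∀ x, F.Adj w x → x = d := by
          rcases hstar d w hw with h | h
          · exact absurd (h w' hw').symm hne
          · exact h
        rcases hwD with ⟨x, x', hx, hx', hxx⟩ | ⟨h3, h4⟩
        · exact hxx ((hlw x hx).trans (hlw x' hx').symm)
        · have : g w = d := hlw _ (hg w)
          rw [this] at h3
          exact hne ((h3 w hw).trans (h3 w' hw').symm)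
      · have hlw : ∀ x, F.Adj w x → x = d := by
          rcases hstar d w hw with h | h
          · exact absurd (h w' hw').symm hne
          · exact h
        exact hlw _ (hg w)
    · refine ⟨g d, ?_, h1 _ (hg (g d))⟩
      intro hgd
      rw [hD] at hgd
      have hggd : g (g d) = d := h1 _ (hg (g d))
      rcases hgd with ⟨x, x', hx, hx', hxx⟩ | ⟨h3, h4⟩
      · exact hxx ((h1 x hx).trans (h1 x' hx').symm)
      · rw [hggd] at h4
        exact absurd h4 (lt_asymm h2)

/-- A graph without isolated vertices contains a spanning star forest. -/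
theorem exists_starForest {n : ℕ} (hn : 0 < n) (G : SimpleGraph (Fin n))
    (hG : ∀ v, ∃ w, G.Adj v w) :
    ∃ (k : ℕ) (s : ℕ → ℕ), 1 ≤ k ∧ (∀ i j, i ≤ j → j < k → s j ≤ s i) ∧ (∀ i < k, 1 ≤ s i) ∧
      ∑ l ∈ range k, s l + k = n ∧ (StarForestBounds.starForest k s).IsContained G := by
  obtain ⟨D, g, h1, h2⟩ := exists_centres G hG
  let fib : Fin n → Finset (Fin n) := fun d => univ.filter fun v => v ∉ D ∧ g v = d
  have hfib : ∀ d v, v ∈ fib d ↔ v ∉ D ∧ g v = d := by intro d v; simp [fib]
  have hfn : ∀ d, (fib d).card ≤ n := fun d => (card_le_univ _).trans (by simp)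
  let e0 : Fin D.card ≃ D := D.equivFin.symm
  let h : Fin D.card → ℕ := fun i => n - (fib (e0 i)).card
  let e : Fin D.card ≃ D := (Tuple.sort h).trans e0
  have hmono : Monotone (h ∘ Tuple.sort h) := Tuple.monotone_sort h
  have hanti : ∀ i j : Fin D.card, i ≤ j → (fib (e j)).card ≤ (fib (e i)).card := by
    intro i j hij
    have := hmono hij
    change n - (fib (e0 (Tuple.sort h i))).card ≤ n - (fib (e0 (Tuple.sort h j))).card at this
    have a1 := hfn (e0 (Tuple.sort h i))
    have a2 := hfn (e0 (Tuple.sort h j))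
    change (fib (e0 (Tuple.sort h j))).card ≤ (fib (e0 (Tuple.sort h i))).card
    omega
  let s : ℕ → ℕ := fun i => if hi : i < D.card then (fib (e ⟨i, hi⟩)).card else 1
  have hs : ∀ i : Fin D.card, (fib (e i)).card = s i := by
    intro i
    simp [s]
  have hDpos : 1 ≤ D.card := by
    rw [Nat.one_le_iff_ne_zero, Ne, card_eq_zero]
    intro hD
    have := (h1 ⟨0, hn⟩ (by simp [hD])).1
    simp [hD] at this
  refine ⟨D.card, s, hDpos, ?_, ?_, ?_, ?_⟩
  · intro i j hij hj
    have := hanti ⟨i, by omega⟩ ⟨j, hj⟩ (by simpa using hij)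
    rw [hs, hs] at this
    exact this
  · intro i hi
    have := hs ⟨i, hi⟩
    simp only at this
    rw [← this, Nat.one_le_iff_ne_zero, Ne, card_eq_zero]
    intro hempty
    obtain ⟨v, hv, hgv⟩ := h2 (e ⟨i, hi⟩) (e ⟨i, hi⟩).2
    have : v ∈ fib (e ⟨i, hi⟩) := (hfib _ _).2 ⟨hv, hgv⟩
    rw [hempty] at this
    simp at this
  · have e1 : ∑ l ∈ range D.card, s l = ∑ i : Fin D.card, (fib (e i)).card := by
      rw [← Fin.sum_univ_eq_sum_range s D.card]
      exact Finset.sum_congr rfl fun i _ => (hs i).symm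
    have e2 : ∑ i : Fin D.card, (fib (e i)).card = ∑ d : D, (fib d).card :=
      Equiv.sum_comp e (fun d : D => (fib d).card)
    have e3 : ∑ d : D, (fib d).card = ∑ d ∈ D, (fib d).card := by
      rw [Finset.sum_coe_sort D (fun d => (fib d).card)]
    have e4 : ∑ d ∈ D, (fib d).card = (univ.filter fun v => v ∉ D).card := by
      rw [Finset.card_eq_sum_card_fiberwise (f := g) (t := D)]
      · apply Finset.sum_congr rfl
        intro d _
        congr 1
        ext v
        simp [fib]
      · intro v hv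
        simp only [coe_filter, mem_univ, true_and, Set.mem_ofPred_eq] at hv
        exact (h1 v hv).1
    have e5 : (univ.filter fun v => v ∉ D).card + D.card = n := by
      have : (univ.filter fun v => v ∉ D) = Dᶜ := by ext v; simp
      rw [this, card_compl_add_card]
      simp
    rw [e1, e2, e3, e4, e5]
  · let φ : (Σ i : Fin D.card, Option (Fin (s i))) → Fin n := fun x =>
      match x with
      | ⟨i, none⟩ => (e i : Fin n)
      | ⟨i, some a⟩ => ((Finset.equivFinOfCardEq (hs i)).symm a : Fin n)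
    have hφn : ∀ i : Fin D.card, φ ⟨i, none⟩ = (e i : Fin n) := fun i => rfl
    have hφs : ∀ (i : Fin D.card) (a : Fin (s i)), φ ⟨i, some a⟩ ∈ fib (e i) := fun i a =>
      ((Finset.equivFinOfCardEq (hs i)).symm a).2
    have hadj : ∀ (i : Fin D.card) (a : Fin (s i)), G.Adj (φ ⟨i, none⟩) (φ ⟨i, some a⟩) := by
      intro i a
      have h3 := (hfib _ _).1 (hφs i a)
      have h4 := (h1 _ h3.1).2
      rw [h3.2] at h4
      exact h4
    refine ⟨⟨⟨φ, ?_⟩, ?_⟩⟩
    · rintro ⟨i, a⟩ ⟨i', a'⟩ ⟨hi, hab⟩
      obtain rfl : i = i' := hi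
      rcases hab with ⟨ha, hb⟩ | ⟨ha, hb⟩
      · simp only at ha hb
        subst ha
        obtain ⟨b, rfl⟩ := Option.ne_none_iff_exists'.1 hb
        exact hadj i b
      · simp only at ha hb
        subst hb
        obtain ⟨b, rfl⟩ := Option.ne_none_iff_exists'.1 ha
        exact (hadj i b).symm
    · have hcen : ∀ i : Fin D.card, (e i : Fin n) ∈ D := fun i => (e i).2
      rintro ⟨i, a⟩ ⟨i', a'⟩ heq
      change φ _ = φ _ at heq
      rcases a with _ | a <;> rcases a' with _ | a'
      · rw [hφn, hφn] at heq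
        have : i = i' := e.injective (Subtype.ext heq)
        subst this
        rfl
      · rw [hφn] at heq
        have h3 := (hfib _ _).1 (hφs i' a')
        rw [← heq] at h3
        exact absurd (hcen i) h3.1
      · rw [hφn] at heq
        have h3 := (hfib _ _).1 (hφs i a)
        rw [heq] at h3
        exact absurd (hcen i') h3.1
      · have h3 := (hfib _ _).1 (hφs i a)
        have h4 := (hfib _ _).1 (hφs i' a')
        rw [heq, h4.2] at h3
        have : i' = i := e.injective (Subtype.ext h3.2)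
        subst this
        have h5 : (Finset.equivFinOfCardEq (hs i')).symm a = (Finset.equivFinOfCardEq (hs i')).symm a' :=
          Subtype.ext heq
        have h6 := (Finset.equivFinOfCardEq (hs i')).symm.injective h5
        rw [h6]

/-! ### the lower bound -/

/-- The star with `m` edges does not arrow on `2 (m - 1)` vertices. -/
theorem not_arrows_star (m : ℕ) (s : ℕ → ℕ) (hs : s 0 = m + 1) :
    ¬ Arrows (2 * m) (StarForestBounds.starForest 1 s) := by
  intro hA
  let R : SimpleGraph (Fin (2 * m)) :=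
    { Adj := fun a b => a ≠ b ∧ (a.val < m ↔ b.val < m)
      symm := ⟨fun a b h => ⟨h.1.symm, h.2.symm⟩⟩
      loopless := ⟨fun a h => h.1 rfl⟩ }
  have key : ∀ (Q : SimpleGraph (Fin (2 * m))) (T : Fin (2 * m) → Finset (Fin (2 * m))),
      (∀ a, (T a).card = m) → (∀ a b, Q.Adj a b → b ∈ T a) →
      ¬ (StarForestBounds.starForest 1 s).IsContained Q := by
    rintro Q T hT hQ ⟨φ⟩
    have hadj : ∀ a : Fin (s 0), Q.Adj (φ ⟨0, none⟩) (φ ⟨0, some a⟩) := fun a =>
      φ.toHom.map_adj ⟨rfl, Or.inl ⟨rfl, by simp⟩⟩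
    have hinj : Function.Injective fun a : Fin (s 0) => φ ⟨0, some a⟩ := by
      intro a b hab
      have := φ.injective hab
      simpa using this
    have hle : (univ : Finset (Fin (s 0))).card ≤ (T (φ ⟨0, none⟩)).card :=
      Finset.card_le_card_of_injOn (fun a => φ ⟨0, some a⟩)
        (fun a _ => hQ _ _ (hadj a)) (fun a _ b _ hab => hinj hab)
    rw [hT, card_univ, Fintype.card_fin, hs] at hle
    omega
  have hlow : (univ.filter fun b : Fin (2 * m) => b.val < m).card = m := by
    rw [Fin.card_filter_val_lt]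
    omega
  have hhigh : (univ.filter fun b : Fin (2 * m) => ¬ b.val < m).card = m := by
    have h1 := Finset.card_filter_add_card_filter_not (s := (univ : Finset (Fin (2 * m))))
      (fun b : Fin (2 * m) => b.val < m)
    rw [hlow, card_univ, Fintype.card_fin] at h1
    omega
  rcases hA R with h | h
  · refine key R (fun a => if a.val < m then univ.filter (fun b => b.val < m)
      else univ.filter (fun b => ¬ b.val < m)) ?_ ?_ h
    · intro a
      split_ifs
      · exact hlow
      · exact hhigh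
    · rintro a b ⟨-, hab⟩
      split_ifs with ha
      · simpa using hab.1 ha
      · simpa using fun hb => ha (hab.2 hb)
  · refine key Rᶜ (fun a => if a.val < m then univ.filter (fun b => ¬ b.val < m)
      else univ.filter (fun b => b.val < m)) ?_ ?_ h
    · intro a
      split_ifs
      · exact hhigh
      · exact hlow
    · intro a b hab
      rw [SimpleGraph.compl_adj] at hab
      have hab2 : ¬ (a.val < m ↔ b.val < m) := fun hh => hab.2 ⟨hab.1, hh⟩
      split_ifs with ha
      · simp only [mem_filter, mem_univ, true_and]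
        exact fun hb => hab2 ⟨fun _ => hb, fun _ => ha⟩
      · simp only [mem_filter, mem_univ, true_and]
        by_contra hb
        exact hab2 ⟨fun h => absurd h ha, fun h => absurd h hb⟩

/-- the numerical part of the lower bound -/
theorem numeric (k n y : ℕ) (s : ℕ → ℕ) (hsum : ∑ l ∈ range k, s l + k = n) (hk : k ≤ y + 1)
    (hM : ∀ i < k, ∑ l ∈ range i, s l + 2 * s i ≤ n + y) :
    n ≤ (2 * y + 1) * 2 ^ (y + 1) := by
  have hle : ∀ i ≤ k, ∑ l ∈ range i, s l ≤ ∑ l ∈ range k, s l := by
    intro i hi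
    exact Finset.sum_le_sum_of_subset (range_mono hi)
  have h : ∀ i ≤ k, n + y ≤ 2 ^ i * (n + y - ∑ l ∈ range i, s l) := by
    intro i
    induction i with
    | zero => intro _; simp
    | succ i ih =>
      intro hi
      refine (ih (by omega)).trans ?_
      rw [pow_succ, mul_assoc]
      apply Nat.mul_le_mul_left
      have h1 := hM i (by omega)
      have h2 := hle (i + 1) hi
      rw [Finset.sum_range_succ] at h2 ⊢
      omega
  have h1 := h k le_rfl
  have h2 : n + y - ∑ l ∈ range k, s l = y + k := by omega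
  rw [h2] at h1
  calc n ≤ n + y := Nat.le_add_right _ _
    _ ≤ 2 ^ k * (y + k) := h1
    _ ≤ 2 ^ (y + 1) * (2 * y + 1) := by
        apply Nat.mul_le_mul
        · exact Nat.pow_le_pow_right (by norm_num) hk
        · omega
    _ = (2 * y + 1) * 2 ^ (y + 1) := Nat.mul_comm _ _

theorem lower_one {n : ℕ} (hn : 4 ≤ n) (G : SimpleGraph (Fin n)) (hG : ∀ v, ∃ w, G.Adj v w) :
    ∃ y, ramseyNumber G = n + y ∧ n ≤ (2 * y + 1) * 2 ^ (y + 1) := by
  obtain ⟨k, s, hk, hanti, hpos, hsum, hcont⟩ := exists_starForest (by omega) G hG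
  have hAG := arrows_ramseyNumber G
  have hAF : Arrows (ramseyNumber G) (StarForestBounds.starForest k s) := hAG.of_contained hcont
  rcases Nat.lt_or_ge k 2 with hk2 | hk2
  · obtain rfl : k = 1 := by omega
    have hs0 : s 0 + 1 = n := by simpa using hsum
    have h1 : 2 * (n - 2) < ramseyNumber G := by
      by_contra hcon
      exact not_arrows_star (n - 2) s (by omega) (hAF.mono (not_lt.1 hcon))
    refine ⟨ramseyNumber G - n, by omega, ?_⟩
    obtain ⟨y, hy⟩ : ∃ y, ramseyNumber G - n = y + 1 := ⟨ramseyNumber G - n - 1, by omega⟩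
    rw [hy]
    have h2 : 4 ≤ 2 ^ (y + 1 + 1) := by
      calc 4 = 2 ^ 2 := by norm_num
        _ ≤ 2 ^ (y + 1 + 1) := Nat.pow_le_pow_right (by norm_num) (by omega)
    calc n ≤ (2 * (y + 1) + 1) * 4 := by omega
      _ ≤ (2 * (y + 1) + 1) * 2 ^ (y + 1 + 1) := Nat.mul_le_mul_left _ h2
  · have hle : Pool.Agent.Results.MP_705b7e_co.StarForestBounds.ramseyNumber
        (StarForestBounds.starForest k s) ≤ ramseyNumber G := Nat.sInf_le hAF
    obtain ⟨h1, -, h3, -, -⟩ := StarForestBounds.result.1 k s hk2 hanti hpos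
    have h4 : ∑ l ∈ range k, s l + (2 * k - 1) ≤ ramseyNumber G := h3.trans hle
    have h5 : ∀ i < k, ∑ l ∈ range i, s l + 2 * s i ≤ ramseyNumber G := by
      intro i hi
      refine le_trans ?_ (h1.trans hle)
      exact Finset.le_sup (f := fun i => ∑ l ∈ range i, s l + 2 * s i) (by simpa using hi)
    refine ⟨ramseyNumber G - n, by omega, ?_⟩
    refine numeric k n _ s hsum (by omega) ?_
    intro i hi
    have := h5 i hi
    omega

/-! ### the upper bound -/

/-- the star sizes -/
def sz (u : ℕ) (i : ℕ) : ℕ := (u / 2 ^ i + 3) / 2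

theorem sz_sum (u : ℕ) : ∀ i, ∑ l ∈ range i, sz u l + u / 2 ^ i = u + i := by
  intro i
  induction i with
  | zero => simp
  | succ i ih =>
    rw [Finset.sum_range_succ, sz, pow_succ, ← Nat.div_div_eq_div_mul]
    omega

theorem sz_arrows (u k : ℕ) (hk : 1 ≤ k) :
    Arrows (u + 3 * k + 2) (StarForestBounds.starForest k (sz u)) := by
  refine StarForestBounds.arrows_of_bound k _ (sz u) hk ?_
  intro i hi
  have h1 := sz_sum u i
  have h2 : sz u i = (u / 2 ^ i + 3) / 2 := rfl
  omega

theorem upper_one (n k : ℕ) (hk : 1 ≤ k) (h1 : 2 * k ≤ n) (h2 : n < 2 ^ k + 2 * k) :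
    f n ≤ n + k + 2 := by
  obtain ⟨u, hu⟩ : ∃ u, n = u + 2 * k := ⟨n - 2 * k, by omega⟩
  have hsum := sz_sum u k
  have hzero : u / 2 ^ k = 0 := Nat.div_eq_of_lt (by omega)
  have hcard : Fintype.card (Σ i : Fin k, Option (Fin (sz u i))) = n := by
    rw [StarForestBounds.card_vertices]
    omega
  let e := Fintype.equivFinOfCardEq hcard
  let G : SimpleGraph (Fin n) := (StarForestBounds.starForest k (sz u)).comap e.symm
  have hiso : G.IsContained (StarForestBounds.starForest k (sz u)) :=
    ⟨⟨⟨e.symm, fun {a b} hab => hab⟩, e.symm.injective⟩⟩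
  have hpos : ∀ i, 1 ≤ sz u i := by
    intro i
    unfold sz
    generalize u / 2 ^ i = w
    omega
  have hno : ∀ v, ∃ w, G.Adj v w := by
    intro v
    rcases hv : e.symm v with ⟨i, a⟩
    rcases a with _ | a
    · refine ⟨e ⟨i, some ⟨0, hpos i⟩⟩, ?_⟩
      simp only [G, SimpleGraph.comap_adj, hv, Equiv.symm_apply_apply]
      exact ⟨rfl, Or.inl ⟨rfl, by simp⟩⟩
    · refine ⟨e ⟨i, none⟩, ?_⟩
      simp only [G, SimpleGraph.comap_adj, hv, Equiv.symm_apply_apply]
      exact ⟨rfl, Or.inr ⟨by simp, rfl⟩⟩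
  have hA : Arrows (n + k + 2) G := by
    have := (sz_arrows u k hk).of_contained hiso
    rw [show n + k + 2 = u + 3 * k + 2 by omega]
    exact this
  have h3 : ramseyNumber G ≤ n + k + 2 := Nat.sInf_le hA
  exact (Nat.sInf_le ⟨G, hno, rfl⟩ : f n ≤ ramseyNumber G).trans h3

theorem upper (n : ℕ) (hn : 4 ≤ n) : f n ≤ n + Nat.log 2 n + 3 := by
  rcases Nat.lt_or_ge n 8 with h8 | h8
  · have hlog : Nat.log 2 n = 2 := by
      rw [Nat.log_eq_iff (by omega)]
      norm_num
      omega
    rw [hlog]
    have := upper_one n 2 (by norm_num) (by omega) (by omega)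
    omega
  · have hlt : n < 2 ^ (Nat.log 2 n + 1) := Nat.lt_pow_succ_log_self (by norm_num) n
    have hle : 2 ^ Nat.log 2 n ≤ n := Nat.pow_log_le_self 2 (by omega)
    have h3 : 3 ≤ Nat.log 2 n := by
      have : Nat.log 2 8 ≤ Nat.log 2 n := Nat.log_mono_right h8
      have h8' : Nat.log 2 8 = 3 := by
        rw [Nat.log_eq_iff (by omega)]
        norm_num
      omega
    have hp : ∀ m, 3 ≤ m → 2 * (m + 1) ≤ 2 ^ m := by
      intro m hm
      induction m, hm using Nat.le_induction with
      | base => norm_num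
      | succ m hm ih => rw [pow_succ]; omega
    have := upper_one n (Nat.log 2 n + 1) (by omega) ((hp _ h3).trans hle) (by omega)
    omega

/-! ### the final statement -/

theorem f_mem (n : ℕ) (hn : 4 ≤ n) :
    ∃ G : SimpleGraph (Fin n), (∀ v, ∃ w, G.Adj v w) ∧ f n = ramseyNumber G := by
  have hne : {r : ℕ | ∃ G : SimpleGraph (Fin n), (∀ v, ∃ w, G.Adj v w) ∧
      r = ramseyNumber G}.Nonempty := by
    refine ⟨ramseyNumber (⊤ : SimpleGraph (Fin n)), ⊤, fun v => ?_, rfl⟩
    have : Nontrivial (Fin n) := Fin.nontrivial_iff_two_le.2 (by omega)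
    obtain ⟨w, hw⟩ := exists_ne v
    exact ⟨w, hw.symm⟩
  exact Nat.sInf_mem hne

theorem lower (n : ℕ) (hn : 4 ≤ n) :
    (n : ℝ) + Real.logb 2 n - Real.logb 2 (Real.logb 2 n) - 3 ≤ f n := by
  obtain ⟨G, hG, hf⟩ := f_mem n hn
  obtain ⟨y, hy, hny⟩ := lower_one hn G hG
  have hn' : (4 : ℝ) ≤ n := by exact_mod_cast hn
  have hL : 2 ≤ Real.logb 2 n := by
    rw [Real.le_logb_iff_rpow_le (by norm_num) (by linarith)]
    norm_num
    linarith
  have hLL : 1 ≤ Real.logb 2 (Real.logb 2 n) := by
    rw [Real.le_logb_iff_rpow_le (by norm_num) (by linarith)]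
    simpa using hL
  rw [hf, hy]
  push_cast
  rcases le_or_gt (Real.logb 2 n) y with h | h
  · linarith
  · have h1 : (n : ℝ) ≤ (2 * y + 1) * 2 ^ (y + 1) := by exact_mod_cast hny
    have hpos : (0 : ℝ) < 2 * y + 1 := by positivity
    have h2 : Real.logb 2 n ≤ Real.logb 2 (2 * y + 1) + (y + 1) := by
      have h3 : Real.logb 2 n ≤ Real.logb 2 ((2 * y + 1) * 2 ^ (y + 1)) :=
        Real.logb_le_logb_of_le (by norm_num) (by linarith) h1
      rw [Real.logb_mul hpos.ne' (by positivity), Real.logb_pow, Real.logb_self_eq_one (by norm_num)]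
        at h3
      push_cast at h3
      linarith
    have h4 : Real.logb 2 (2 * y + 1) ≤ 2 + Real.logb 2 (Real.logb 2 n) := by
      have h5 : Real.logb 2 (2 * y + 1) ≤ Real.logb 2 (4 * Real.logb 2 n) :=
        Real.logb_le_logb_of_le (by norm_num) hpos (by linarith)
      rw [Real.logb_mul (by norm_num) (by linarith)] at h5
      have h6 : Real.logb 2 4 = 2 := by
        rw [show (4 : ℝ) = 2 ^ (2 : ℕ) by norm_num, Real.logb_pow, Real.logb_self_eq_one (by norm_num)]
        norm_num
      linarith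
    linarith

theorem upper_real (n : ℕ) (hn : 4 ≤ n) : (f n : ℝ) ≤ n + Real.logb 2 n + 3 := by
  have h1 : (f n : ℝ) ≤ n + (Nat.log 2 n : ℕ) + 3 := by exact_mod_cast upper n hn
  have h2 : ((Nat.log 2 n : ℕ) : ℝ) ≤ Real.logb 2 n := by
    rw [Real.le_logb_iff_rpow_le (by norm_num) (by exact_mod_cast (by omega : 0 < n))]
    rw [Real.rpow_natCast]
    exact_mod_cast Nat.pow_log_le_self 2 (by omega)
  linarith

/-- **The smallest Ramsey numbers.** For all `n ≥ 4` one has
`n + log₂ n - log₂ log₂ n - 3 ≤ f n ≤ n + log₂ n + 3`; in particular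
`f n = n + (1 + o(1)) log₂ n`. -/
theorem result :
    (∀ n : ℕ, 4 ≤ n →
      (n : ℝ) + Real.logb 2 n - Real.logb 2 (Real.logb 2 n) - 3 ≤ f n ∧
        (f n : ℝ) ≤ n + Real.logb 2 n + 3) ∧
    Filter.Tendsto (fun n : ℕ => ((f n : ℝ) - n) / Real.logb 2 n) Filter.atTop (nhds 1) := by
  refine ⟨fun n hn => ⟨lower n hn, upper_real n hn⟩, ?_⟩
  have hL : Filter.Tendsto (fun n : ℕ => Real.logb 2 n) Filter.atTop Filter.atTop :=
    (Real.tendsto_logb_atTop (by norm_num)).comp tendsto_natCast_atTop_atTop
  have h0 : Filter.Tendsto (fun x : ℝ => Real.logb 2 x / x) Filter.atTop (nhds 0) := by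
    have := Real.isLittleO_log_id_atTop.tendsto_div_nhds_zero
    have h2 := this.div_const (Real.log 2)
    rw [zero_div] at h2
    refine h2.congr fun x => ?_
    simp only [id, Real.logb]
    ring
  have h1 : Filter.Tendsto (fun n : ℕ => Real.logb 2 (Real.logb 2 n) / Real.logb 2 n)
      Filter.atTop (nhds 0) := h0.comp hL
  have h3 : Filter.Tendsto (fun n : ℕ => 3 / Real.logb 2 n) Filter.atTop (nhds 0) :=
    hL.const_div_atTop 3
  have hlo : Filter.Tendsto (fun n : ℕ => 1 - Real.logb 2 (Real.logb 2 n) / Real.logb 2 n -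
      3 / Real.logb 2 n) Filter.atTop (nhds 1) := by
    have := (tendsto_const_nhds (x := (1 : ℝ)) (f := Filter.atTop (α := ℕ))).sub h1 |>.sub h3
    simpa using this
  have hhi : Filter.Tendsto (fun n : ℕ => 1 + 3 / Real.logb 2 n) Filter.atTop (nhds 1) := by
    have := (tendsto_const_nhds (x := (1 : ℝ)) (f := Filter.atTop (α := ℕ))).add h3
    simpa using this
  refine tendsto_of_tendsto_of_tendsto_of_le_of_le' hlo hhi ?_ ?_
  · filter_upwards [Filter.eventually_ge_atTop 4, hL.eventually_ge_atTop 1] with n hn hLn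
    have hpos : 0 < Real.logb 2 n := by linarith
    rw [le_div_iff₀ hpos, sub_mul, sub_mul, div_mul_cancel₀ _ hpos.ne', div_mul_cancel₀ _ hpos.ne']
    have := lower n hn
    linarith
  · filter_upwards [Filter.eventually_ge_atTop 4, hL.eventually_ge_atTop 1] with n hn hLn
    have hpos : 0 < Real.logb 2 n := by linarith
    rw [div_le_iff₀ hpos, add_mul, div_mul_cancel₀ _ hpos.ne']
    have := upper_real n hn
    linarith

end Pool.Agent.Results.MP_624632_co.SmallestRamsey
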